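import Pool.Agent.Torelli.Inter
import Pool.Agent.Torelli.Words

/-!
# Torelli project, FIN: the letter formula of `kap s (zeta (s+1) n)`
-/

set_option autoImplicit false
set_option linter.unusedSimpArgs false

namespace Pool.Agent.Torelli

open Pool.Torelli Pool.Torelli.Refl

theorem FS_conj {φ : MulAut F} {s h : ℕ} {c : F}
    (ha : ∀ i, s ≤ i → i < s + h → φ (a i) = c * a i * c⁻¹)
    (hb : ∀ i, s ≤ i → i < s + h → φ (b i) = c * b i * c⁻¹) :
    ∀ x ∈ FS s h, φ x = c * x * c⁻¹ := by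
  have : FS s h ≤ MonoidHom.eqLocus φ.toMonoidHom (MulAut.conj c).toMonoidHom :=
    FS_le (fun i h1 h2 => ha i h1 h2) (fun i h1 h2 => hb i h1 h2)
  intro x hx
  exact this hx

theorem FS_fix {φ : MulAut F} {s h : ℕ}
    (ha : ∀ i, s ≤ i → i < s + h → φ (a i) = a i)
    (hb : ∀ i, s ≤ i → i < s + h → φ (b i) = b i) :
    ∀ x ∈ FS s h, φ x = x := by
  have : FS s h ≤ MonoidHom.eqLocus φ.toMonoidHom (MonoidHom.id F) :=
    FS_le (fun i h1 h2 => ha i h1 h2) (fun i h1 h2 => hb i h1 h2)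
  intro x hx
  exact this hx

theorem push_a (s j : ℕ) : push s (a (s + 1 + j)) = Qa s j := by
  have h1 : ¬ (2 * (s + 1 + j) < 2 * (s + 1)) := by omega
  have h2 : 2 * (s + 1 + j) % 2 = 0 := by omega
  have h3 : 2 * (s + 1 + j) / 2 - (s + 1) = j := by omega
  simp [push, a, QL, h1, h2, h3]

theorem push_b (s j : ℕ) : push s (b (s + 1 + j)) = Qb s j := by
  have h1 : ¬ (2 * (s + 1 + j) + 1 < 2 * (s + 1)) := by omega
  have h2 : ¬ ((2 * (s + 1 + j) + 1) % 2 = 0) := by omega
  have h3 : (2 * (s + 1 + j) + 1) / 2 - (s + 1) = j := by omega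
  simp only [push, b, QL, FreeGroup.lift_apply_of, h1, h2, h3, if_false]

theorem push_H (s j : ℕ) :
    push s (H (s + 1 + j)) = Qa s j * Qb s j * (Qa s j)⁻¹ * (Qb s j)⁻¹ := by
  simp only [H, map_mul, map_inv, push_a, push_b]

theorem push_H_succ (s j : ℕ) : push s (H (s + 1 + (j + 1))) =
    S (s + 1 + j) * push s (H (s + 1 + j)) * (S (s + 1 + j))⁻¹ := by
  rw [push_H, push_H, Qa, Qb]
  group

/-- `kap s (H (s+1+j))`, see `kap_H` -/
def EH (s j : ℕ) : MulAut F := push s (H (s + 1 + j)) * (Ta s)⁻¹ * (Ta s)⁻¹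

theorem S_commute_Ta (s j : ℕ) : S (s + 1 + j) * Ta s = Ta s * S (s + 1 + j) :=
  M_commute (S_mem (s + 1 + j) 2 le_rfl) (Ta_mem_M (s := s) (h := 1) le_rfl (by omega)) (by omega)

theorem EH_succ (s j : ℕ) : EH s (j + 1) = S (s + 1 + j) * EH s j * (S (s + 1 + j))⁻¹ := by
  unfold EH
  rw [push_H_succ]
  have h1 : Commute (S (s + 1 + j)) (Ta s) := S_commute_Ta s j
  have h2 : (S (s + 1 + j))⁻¹ * (Ta s)⁻¹ = (Ta s)⁻¹ * (S (s + 1 + j))⁻¹ := h1.inv_inv.eq
  simp only [mul_assoc]
  rw [← mul_assoc (S (s + 1 + j))⁻¹ (Ta s)⁻¹ (Ta s)⁻¹, h2, mul_assoc, h2]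

/-- word of `EH s 0` -/
def EHW : List (Gen × Bool) :=
  [(Gen.C 0, true)] ++
  invWd ([(Gen.A 1, true), (Gen.B 1, false)] ++ [(Gen.C 0, true)] ++
    invWd [(Gen.A 1, true), (Gen.B 1, false)]) ++ [(Gen.C 0, false)] ++
  ([(Gen.A 1, true), (Gen.B 1, false)] ++ [(Gen.C 0, true)] ++
    invWd [(Gen.A 1, true), (Gen.B 1, false)]) ++ [(Gen.A 0, false), (Gen.A 0, false)]

theorem EH_zero (s : ℕ) : EH s 0 = evWord s EHW := by
  unfold EH
  rw [push_H]
  simp only [Qa, Qb, inv_inv, EHW, evWord_append, evWord_invWd, evWord_cons, evWord_nil, evL,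
    Gen.ev, cond_true, cond_false, mul_one, w, add_zero]
  group

/-- the specification of `EH s j` -/
structure EHSpec (s j : ℕ) (φ : MulAut F) : Prop where
  fa : φ (a s) = a s
  fb : φ (b s) = (H (s + 1 + j))⁻¹ * b s
  last : ∀ x ∈ FS (s + 1 + j) 1, φ x =
    ((H (s + 1 + j))⁻¹ * (d s)⁻¹ * H (s + 1 + j)) * x *
      ((H (s + 1 + j))⁻¹ * (d s)⁻¹ * H (s + 1 + j))⁻¹
  mid : ∀ x ∈ FS (s + 1) j, φ x =
    ((H (s + 1 + j))⁻¹ * (d s)⁻¹ * H (s + 1 + j) * d s) * x *
      ((H (s + 1 + j))⁻¹ * (d s)⁻¹ * H (s + 1 + j) * d s)⁻¹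
  out : ∀ n, (n < 2 * s ∨ 2 * (s + 1 + j + 1) ≤ n) → φ (FreeGroup.of n) = FreeGroup.of n

theorem EHSpec_zero (s : ℕ) : EHSpec s 0 (EH s 0) := by
  rw [EH_zero]
  refine ⟨?_, ?_, ?_, ?_, ?_⟩
  · have h := evWord_apply 4 EHW [0] [0] (by decide +kernel) s
    simp only [wordS_cons, wordS_nil, mul_one, lt0, lt1, lt2, lt3, lt4, lt5, lt6, lt7] at h
    exact h
  · have h := evWord_apply 4 EHW [2] [6, 4, 7, 5, 2] (by decide +kernel) s
    simp only [wordS_cons, wordS_nil, mul_one, lt0, lt1, lt2, lt3, lt4, lt5, lt6, lt7] at h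
    rw [h]
    simp only [H, add_zero]
    group
  · apply FS_conj
    · intro i h1 h2
      have hi : i = s + 1 := by omega
      subst hi
      have h := evWord_apply 4 EHW [4] [6, 4, 7, 5, 2, 0, 3, 4, 6, 5, 7, 4, 6, 4, 7, 5, 2, 1, 3, 4,
        6, 5, 7] (by decide +kernel) s
      simp only [wordS_cons, wordS_nil, mul_one, lt0, lt1, lt2, lt3, lt4, lt5, lt6, lt7] at h
      rw [h]
      simp only [H, d, add_zero]
      group
    · intro i h1 h2
      have hi : i = s + 1 := by omega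
      subst hi
      have h := evWord_apply 4 EHW [6] [6, 4, 7, 5, 2, 0, 3, 4, 6, 5, 6, 4, 7, 5, 2, 1, 3, 4,
        6, 5, 7] (by decide +kernel) s
      simp only [wordS_cons, wordS_nil, mul_one, lt0, lt1, lt2, lt3, lt4, lt5, lt6, lt7] at h
      rw [h]
      simp only [H, d, add_zero]
      group
  · apply FS_conj
    · intro i h1 h2; omega
    · intro i h1 h2; omega
  · intro n hn
    exact evWord_outside s 4 EHW (by decide +kernel) n (by omega)

theorem S_H0 (i : ℕ) : S i (H i) = H (i + 1) := by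
  simp only [H, map_mul, map_inv, S_a0, S_b0]

theorem S_fix_lt {i : ℕ} {x : F} {s h : ℕ} (hd : s + h ≤ i) (hx : x ∈ FS s h) : S i x = x :=
  M_fix_FS (S_mem i 2 le_rfl) (Or.inl hd) hx

theorem EHSpec_succ (s j : ℕ) (φ : MulAut F) (h : EHSpec s j φ) :
    EHSpec s (j + 1) (S (s + 1 + j) * φ * (S (s + 1 + j))⁻¹) := by
  obtain ⟨h1, h2, h3, h4, h5⟩ := h
  set i := s + 1 + j with hi
  have e1 : s + 1 + (j + 1) = i + 1 := by omega
  have hSd : S i (d s) = d s := S_fix_lt (s := s) (h := 1) (by omega) (d_mem_FS le_rfl (by omega))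
  have hSa : S i (a s) = a s := S_fix_lt (s := s) (h := 1) (by omega) (a_mem_FS le_rfl (by omega))
  have hSb : S i (b s) = b s := S_fix_lt (s := s) (h := 1) (by omega) (b_mem_FS le_rfl (by omega))
  have hSH : S i (H i) = H (i + 1) := S_H0 i
  -- key: value at `S v`
  have key : ∀ v, (S i * φ * (S i)⁻¹) (S i v) = S i (φ v) := by
    intro v
    rw [MulAut.mul_apply, MulAut.mul_apply, MulAut.inv_apply_self]
  have hφa' : φ (a (i + 1)) = a (i + 1) := h5 _ (by omega)
  have hφb' : φ (b (i + 1)) = b (i + 1) := h5 _ (by omega)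
  have hφH : φ (H i) = (H i)⁻¹ * (d s)⁻¹ * H i * d s * H i := by
    rw [h3 (H i) (H_mem_FS le_rfl (by omega))]
    group
  refine ⟨?_, ?_, ?_, ?_, ?_⟩
  · have := key (a s)
    rwa [hSa, h1, hSa] at this
  · have := key (b s)
    rw [hSb, h2, map_mul, map_inv, hSH, hSb] at this
    rw [e1]; exact this
  · rw [e1]
    apply FS_conj
    · intro k k1 k2
      have hk : k = i + 1 := by omega
      subst hk
      have := key (a i)
      rw [S_a0, h3 (a i) (a_mem_FS le_rfl (by omega))] at this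
      simp only [map_mul, map_inv, hSH, hSd, S_a0] at this
      exact this
    · intro k k1 k2
      have hk : k = i + 1 := by omega
      subst hk
      have := key (b i)
      rw [S_b0, h3 (b i) (b_mem_FS le_rfl (by omega))] at this
      simp only [map_mul, map_inv, hSH, hSd, S_b0] at this
      exact this
  · rw [e1]
    apply FS_conj
    · intro k k1 k2
      by_cases hk : k = i
      · rw [hk]
        have hv : S i (H i * a (i + 1) * (H i)⁻¹) = a i := by
          rw [map_mul, map_mul, map_inv, hSH, S_a1]; group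
        have hφv : φ (H i * a (i + 1) * (H i)⁻¹) =
            ((H i)⁻¹ * (d s)⁻¹ * H i * d s * H i) * a (i + 1) *
              ((H i)⁻¹ * (d s)⁻¹ * H i * d s * H i)⁻¹ := by
          rw [map_mul, map_mul, map_inv, hφH, hφa']
        have := key (H i * a (i + 1) * (H i)⁻¹)
        rw [hv, hφv] at this
        simp only [map_mul, map_inv, hSH, hSd, S_a1] at this
        rw [this]
        group
      · have hfix : S i (a k) = a k :=
          S_fix_lt (s := k) (h := 1) (by omega) (a_mem_FS le_rfl (by omega))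
        have := key (a k)
        rw [hfix, h4 (a k) (a_mem_FS (by omega) (by omega))] at this
        simp only [map_mul, map_inv, hSH, hSd, hfix] at this
        exact this
    · intro k k1 k2
      by_cases hk : k = i
      · rw [hk]
        have hv : S i (H i * b (i + 1) * (H i)⁻¹) = b i := by
          rw [map_mul, map_mul, map_inv, hSH, S_b1]; group
        have hφv : φ (H i * b (i + 1) * (H i)⁻¹) =
            ((H i)⁻¹ * (d s)⁻¹ * H i * d s * H i) * b (i + 1) *
              ((H i)⁻¹ * (d s)⁻¹ * H i * d s * H i)⁻¹ := by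
          rw [map_mul, map_mul, map_inv, hφH, hφb']
        have := key (H i * b (i + 1) * (H i)⁻¹)
        rw [hv, hφv] at this
        simp only [map_mul, map_inv, hSH, hSd, S_b1] at this
        rw [this]
        group
      · have hfix : S i (b k) = b k :=
          S_fix_lt (s := k) (h := 1) (by omega) (b_mem_FS le_rfl (by omega))
        have := key (b k)
        rw [hfix, h4 (b k) (b_mem_FS (by omega) (by omega))] at this
        simp only [map_mul, map_inv, hSH, hSd, hfix] at this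
        exact this
  · intro n hn
    have hfix : S i (FreeGroup.of n) = FreeGroup.of n := S_out i n (by omega)
    have := key (FreeGroup.of n)
    rwa [hfix, h5 n (by omega), hfix] at this

theorem EH_spec (s j : ℕ) : EHSpec s j (EH s j) := by
  induction j with
  | zero => exact EHSpec_zero s
  | succ j ih => rw [EH_succ]; exact EHSpec_succ s j _ ih

/-- the formula of `kap s (zeta (s+1) n)` -/
structure ThSpec (s n : ℕ) (φ : MulAut F) : Prop where
  fa : φ (a s) = a s
  fb : φ (b s) = (zeta (s + 1) n)⁻¹ * b s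
  mid : ∀ x ∈ FS (s + 1) n, φ x =
    ((zeta (s + 1) n)⁻¹ * (d s)⁻¹ * zeta (s + 1) n) * x *
      ((zeta (s + 1) n)⁻¹ * (d s)⁻¹ * zeta (s + 1) n)⁻¹
  out : ∀ k, (k < 2 * s ∨ 2 * (s + 1 + n) ≤ k) → φ (FreeGroup.of k) = FreeGroup.of k

/-- the product of the `EH s j`, `j < n` -/
def Th (s : ℕ) : ℕ → MulAut F
  | 0 => 1
  | n + 1 => Th s n * EH s n

theorem Th_spec (s n : ℕ) : ThSpec s n (Th s n) := by
  induction n with
  | zero =>
    refine ⟨rfl, by simp [Th, zeta_zero], ?_, fun k _ => rfl⟩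
    apply FS_conj
    · intro i h1 h2; omega
    · intro i h1 h2; omega
  | succ n ih =>
    obtain ⟨h1, h2, h3, h4⟩ := ih
    obtain ⟨g1, g2, g3, g4, g5⟩ := EH_spec s n
    have hd : Th s n (d s) = (zeta (s + 1) n)⁻¹ * d s * zeta (s + 1) n := by
      simp only [d, map_mul, map_inv, h1, h2]; group
    have hfixl : ∀ x ∈ FS (s + 1 + n) 1, Th s n x = x := by
      apply FS_fix
      · intro i _ _; exact h4 _ (by omega)
      · intro i _ _; exact h4 _ (by omega)
    have hH : Th s n (H (s + 1 + n)) = H (s + 1 + n) := hfixl _ (H_mem_FS le_rfl (by omega))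
    have hz : zeta (s + 1) (n + 1) = zeta (s + 1) n * H (s + 1 + n) := zeta_succ _ _
    refine ⟨?_, ?_, ?_, ?_⟩
    · rw [Th, MulAut.mul_apply, g1, h1]
    · rw [Th, MulAut.mul_apply, g2, map_mul, map_inv, hH, h2, hz]; group
    · have hlast : ∀ x ∈ FS (s + 1 + n) 1, Th s (n + 1) x =
          ((zeta (s + 1) (n + 1))⁻¹ * (d s)⁻¹ * zeta (s + 1) (n + 1)) * x *
          ((zeta (s + 1) (n + 1))⁻¹ * (d s)⁻¹ * zeta (s + 1) (n + 1))⁻¹ := by
        intro x hx
        rw [Th, MulAut.mul_apply, g3 x hx]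
        simp only [map_mul, map_inv, hH, hd, hfixl x hx]
        rw [hz]; group
      have hmid : ∀ x ∈ FS (s + 1) n, Th s (n + 1) x =
          ((zeta (s + 1) (n + 1))⁻¹ * (d s)⁻¹ * zeta (s + 1) (n + 1)) * x *
          ((zeta (s + 1) (n + 1))⁻¹ * (d s)⁻¹ * zeta (s + 1) (n + 1))⁻¹ := by
        intro x hx
        rw [Th, MulAut.mul_apply, g4 x hx]
        simp only [map_mul, map_inv, hH, hd, h3 x hx]
        rw [hz]; group
      apply FS_conj
      · intro i i1 i2
        by_cases hi : i < s + 1 + n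
        · exact hmid _ (a_mem_FS i1 hi)
        · exact hlast _ (a_mem_FS (by omega) (by omega))
      · intro i i1 i2
        by_cases hi : i < s + 1 + n
        · exact hmid _ (b_mem_FS i1 hi)
        · exact hlast _ (b_mem_FS (by omega) (by omega))
    · intro k hk
      rw [Th, MulAut.mul_apply, g5 k (by omega), h4 k (by omega)]

theorem Ta_d (s : ℕ) : Ta s (d s) = d s := by
  simp only [d, map_mul, map_inv, Ta_a, Ta_b]; group

theorem EH_commute_Ta (s j : ℕ) : EH s j * Ta s = Ta s * EH s j := by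
  obtain ⟨g1, g2, g3, g4, g5⟩ := EH_spec s j
  have hfix : ∀ x ∈ FS (s + 1) (j + 1), Ta s x = x := by
    intro x hx
    exact M_fix_FS (Ta_mem_M (s := s) (h := 1) le_rfl (by omega)) (by omega) hx
  have hH : Ta s (H (s + 1 + j)) = H (s + 1 + j) := Ta_H _ _
  -- letters of the handles `s+1..s+1+j`
  have hB : ∀ x ∈ FS (s + 1) (j + 1), Ta s (EH s j x) = EH s j x := by
    have hl : FS (s + 1) (j + 1) ≤
        MonoidHom.eqLocus ((Ta s).toMonoidHom.comp (EH s j).toMonoidHom) (EH s j).toMonoidHom := by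
      have aux : ∀ x, (x ∈ FS (s + 1 + j) 1 ∨ x ∈ FS (s + 1) j) → Ta s (EH s j x) = EH s j x := by
        rintro x (hx | hx)
        · rw [g3 x hx]
          simp only [map_mul, map_inv, hH, Ta_d, hfix x (FS_mono (by omega) (by omega) hx)]
        · rw [g4 x hx]
          simp only [map_mul, map_inv, hH, Ta_d, hfix x (FS_mono (by omega) (by omega) hx)]
      apply FS_le
      · intro i i1 i2
        by_cases hi : i < s + 1 + j
        · exact aux _ (Or.inr (a_mem_FS i1 hi))
        · exact aux _ (Or.inl (a_mem_FS (by omega) (by omega)))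
      · intro i i1 i2
        by_cases hi : i < s + 1 + j
        · exact aux _ (Or.inr (b_mem_FS i1 hi))
        · exact aux _ (Or.inl (b_mem_FS (by omega) (by omega)))
    intro x hx
    exact hl hx
  apply aut_ext_of
  intro n
  rw [MulAut.mul_apply, MulAut.mul_apply]
  by_cases h1 : n < 2 * s ∨ 2 * (s + 1 + j + 1) ≤ n
  · rw [Ta_of_ne (by omega), g5 n h1, Ta_of_ne (by omega)]
  · by_cases h2 : n < 2 * (s + 1)
    · rcases letter_cases n with ⟨h, hn⟩ | ⟨h, hn⟩
      · have : n / 2 = s := by omega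
        rw [h, this, Ta_a, g1, Ta_a]
      · have : n / 2 = s := by omega
        rw [h, this, Ta_b, map_mul, g1, g2, map_mul, map_inv, hH, Ta_b, mul_assoc]
    · have hx : (FreeGroup.of n : F) ∈ FS (s + 1) (j + 1) := of_mem_FS (by omega) (by omega)
      rw [hfix _ hx, hB _ hx]

theorem push_zeta (s n : ℕ) : push s (zeta (s + 1) n) = Th s n * Ta s ^ (2 * n) := by
  induction n with
  | zero => simp [Th, zeta_zero]
  | succ n ih =>
    have h1 : push s (H (s + 1 + n)) = EH s n * Ta s ^ 2 := by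
      unfold EH; rw [pow_two]; group
    have h2 : Commute (Ta s ^ (2 * n)) (EH s n) := by
      have : Commute (Ta s) (EH s n) := (EH_commute_Ta s n).symm
      exact this.pow_left _
    rw [zeta_succ, map_mul, ih, h1, Th, mul_assoc, ← mul_assoc (Ta s ^ (2 * n)), h2.eq]
    rw [show 2 * (n + 1) = 2 * n + 2 by ring, pow_add]
    simp only [mul_assoc]

theorem Ta_pow_b (s k : ℕ) : (Ta s ^ k) (b s) = b s * a s ^ k := by
  induction k with
  | zero => simp
  | succ k ih =>
    rw [pow_succ', MulAut.mul_apply, ih, map_mul, map_pow, Ta_a, Ta_b, pow_succ', mul_assoc]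

theorem nu_zeta (s n : ℕ) : nu s (zeta (s + 1) n) = 2 * n := by
  obtain ⟨h1, h2, -, -⟩ := Th_spec s n
  have h : push s (zeta (s + 1) n) (b s) = (zeta (s + 1) n)⁻¹ * b s * a s ^ (2 * n) := by
    rw [push_zeta, MulAut.mul_apply, Ta_pow_b, map_mul (Th s n), map_pow (Th s n), h1, h2]
  have h' : cl (push s (zeta (s + 1) n) (b s)) = cl (b s) * cl (a s) ^ (2 * n) := by
    rw [h]
    simp only [map_mul, map_inv, map_pow, cl_zeta, inv_one, one_mul]
  unfold nu
  rw [h', cl_a, cl_b, toAdd_mul, toAdd_pow]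
  simp

/-- `kap s (zeta (s+1) n)` is the product of the `EH s j` -/
theorem kap_zeta (s n : ℕ) : kap s (zeta (s + 1) n) = Th s n := by
  unfold kap
  rw [nu_zeta, push_zeta, mul_assoc, ← zpow_natCast, ← zpow_add]
  have : ((2 * n : ℕ) : ℤ) + -(2 * (n : ℤ)) = 0 := by push_cast; ring
  rw [this, zpow_zero, mul_one]

theorem kap_zeta_spec (s n : ℕ) : ThSpec s n (kap s (zeta (s + 1) n)) := by
  rw [kap_zeta]; exact Th_spec s n

end Pool.Agent.Torelli
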