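import Pool.Agent.Torelli.Fin.Closed
import Pool.Agent.Torelli.Fin.KapZeta

/-!
# Torelli project, CNT: counting generators

From the statements `LiftStmt`, `PGStmt`, `B1Stmt`, `KapStmt`, `GStmt`, `HStmt`:
`Tor s h` is generated by `mh h` elements (`h ≥ 3`) and `OpenGen g (ng g)` (`g ≥ 4`).
-/

set_option autoImplicit false

namespace Pool.Agent.Torelli

/-! ## The statements used -/

/-- part PG -/
def PGStmt : Prop := ∀ s h, 3 ≤ h → ∃ L : Fin (2 * h ^ 2 + h) → F,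
  (∀ i, ∃ θ ∈ M s h, L i = θ (H s)) ∧
  ∀ D : Subgroup F, (∀ ψ ∈ Tor s h, ∀ x ∈ D, ψ x ∈ D) → zeta s h ∈ D → (∀ i, L i ∈ D) →
    Delta s h ≤ D

/-- part B1 -/
def B1Stmt : Prop := ∀ s h, 3 ≤ h → ∀ x ∈ FS s h, cl x = 1 → x ∈ Delta s h

/-- part F: properties of `kap` -/
structure KapStmt : Prop where
  mul : ∀ s k u v, u ∈ FS (s + 1) k → v ∈ FS (s + 1) k → cl u = 1 → cl v = 1 →
    kap s (u * v) = kap s u * kap s v
  tor : ∀ s k u, u ∈ FS (s + 1) k → cl u = 1 → kap s u ∈ Tor s (k + 1)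
  equiv : ∀ s k u γ, γ ∈ M (s + 1) k → u ∈ FS (s + 1) k → cl u = 1 →
    γ * kap s u * γ⁻¹ = kap s (γ u)

/-- part G -/
def GStmt : Prop := ∀ s h, 4 ≤ h → Tor s h = JG s h

/-- part H -/
def HStmt : Prop := ∀ s, GenN (Tor s 3) 42

/-! ## Generation by finitely many elements -/

theorem genN_of_fintype {G : Type*} [Group G] {ι : Type*} [Fintype ι] (f : ι → G) {N : ℕ}
    (hN : Fintype.card ι = N) : GenN (Subgroup.closure (Set.range f)) N := by
  subst hN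
  refine ⟨f ∘ (Fintype.equivFin ι).symm, ?_⟩
  rw [Set.range_comp, (Fintype.equivFin ι).symm.surjective.range_eq, Set.image_univ]

theorem ng_three : ng 3 = 35 := by norm_num [ng]

theorem ng_dvd (h : ℕ) : 3 ∣ 4 * h ^ 3 - h := by
  have h1 : h ≤ 4 * h ^ 3 := by
    rcases Nat.eq_zero_or_pos h with rfl | hp
    · simp
    · calc h = h ^ 1 := by ring
        _ ≤ h ^ 3 := Nat.pow_le_pow_right hp (by norm_num)
        _ ≤ 4 * h ^ 3 := by omega
  zify [h1]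
  have : ((h : ℤ) ^ 3 * 4 - h) = 3 * (h ^ 3) + (h ^ 3 - h) := by ring
  have h2 : (3 : ℤ) ∣ (h : ℤ) ^ 3 - h := by
    have : (h : ℤ) % 3 = 0 ∨ (h : ℤ) % 3 = 1 ∨ (h : ℤ) % 3 = 2 := by omega
    apply Int.dvd_of_emod_eq_zero
    rcases this with h3 | h3 | h3 <;> simp [pow_succ, Int.sub_emod, Int.mul_emod, h3]
  have h3 : (4 : ℤ) * h ^ 3 - h = 3 * (h ^ 3) + (h ^ 3 - h) := by ring
  rw [h3]
  exact dvd_add (dvd_mul_right _ _) h2

theorem three_mul_ng (h : ℕ) : 3 * ng h + h = 4 * h ^ 3 := by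
  have h1 : h ≤ 4 * h ^ 3 := by
    rcases Nat.eq_zero_or_pos h with rfl | hp
    · simp
    · calc h = h ^ 1 := by ring
        _ ≤ h ^ 3 := Nat.pow_le_pow_right hp (by norm_num)
        _ ≤ 4 * h ^ 3 := by omega
  unfold ng
  rw [Nat.mul_div_cancel' (ng_dvd h)]
  omega

theorem ng_succ (h : ℕ) : ng (h + 1) = ng h + (2 * h + 1) ^ 2 := by
  have h1 := three_mul_ng h
  have h2 := three_mul_ng (h + 1)
  have h3 : 4 * (h + 1) ^ 3 = 4 * h ^ 3 + 3 * (2 * h + 1) ^ 2 + 1 := by ring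
  omega

theorem mh_three : mh 3 = 42 := by norm_num [mh, ng]

theorem mh_add (h : ℕ) : mh h + 2 * (2 * h ^ 2 + h) = ng (h + 1) := by
  rw [ng_succ, mh]; ring

theorem mh_succ (h : ℕ) : mh h + 2 * (2 * h ^ 2 + h + 1) + (2 * h + 1) = mh (h + 1) := by
  rw [mh, mh, ng_succ]; ring

/-! ## `Ka` and `Kb` -/

theorem kap_one (hK : KapStmt) (s : ℕ) : kap s 1 = 1 := by
  have := hK.mul s 0 1 1 (one_mem _) (one_mem _) (map_one _) (map_one _)
  rw [one_mul] at this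
  exact (mul_eq_left.1 this.symm)

theorem kap_inv (hK : KapStmt) {s k : ℕ} {u : F} (hu : u ∈ FS (s + 1) k) (hc : cl u = 1) :
    kap s u⁻¹ = (kap s u)⁻¹ := by
  have := hK.mul s k u⁻¹ u (inv_mem hu) hu (by rw [map_inv, hc, inv_one]) hc
  rw [inv_mul_cancel, kap_one hK] at this
  exact eq_inv_of_mul_eq_one_left this.symm

/-- the elements `u` of `[F_B, F_B]` with `kap s u ∈ K` -/
def kapPre (hK : KapStmt) (s k : ℕ) (K : Subgroup (MulAut F)) : Subgroup F where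
  carrier := {u | u ∈ FS (s + 1) k ∧ cl u = 1 ∧ kap s u ∈ K}
  one_mem' := ⟨one_mem _, map_one _, by rw [kap_one hK]; exact one_mem _⟩
  mul_mem' := fun {u v} hu hv => ⟨mul_mem hu.1 hv.1, by rw [map_mul, hu.2.1, hv.2.1, one_mul], by
    rw [hK.mul s k u v hu.1 hv.1 hu.2.1 hv.2.1]; exact mul_mem hu.2.2 hv.2.2⟩
  inv_mem' := fun {u} hu => ⟨inv_mem hu.1, by rw [map_inv, hu.2.1, inv_one], by
    rw [kap_inv hK hu.1 hu.2.1]; exact inv_mem hu.2.2⟩

theorem w_comm {s k : ℕ} {γ : MulAut F} (hγ : γ ∈ M (s + 1) k) : w s * γ = γ * w s :=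
  M_commute (w_mem_M (s := s) (h := 1) le_rfl (by omega)) hγ (by omega)

theorem M_Tor_conj {s k : ℕ} {ψ : MulAut F} (hψ : ψ ∈ M s k) : ∀ u ∈ FS s k, cl u = 1 →
    ψ u ∈ FS s k ∧ cl (ψ u) = 1 := by
  intro u hu hc
  refine ⟨M_FS hψ hu, ?_⟩
  rw [cl_eq_one_iff] at hc ⊢
  -- the commutator subgroup is characteristic
  have : (commutator F).map ψ.toMonoidHom ≤ commutator F := by
    rw [commutator_eq_closure, MonoidHom.map_closure, Subgroup.closure_le]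
    rintro _ ⟨_, ⟨x, y, rfl⟩, rfl⟩
    apply Subgroup.subset_closure
    exact ⟨ψ x, ψ y, by simp [commutatorElement_def]⟩
  exact this (Subgroup.mem_map_of_mem _ hc)

/-- To have `Ka s (k+1) ≤ K` it is enough to have `kap` of `zeta` and of the loops `L i`. -/
theorem Ka_le (hP : PGStmt) (hB : B1Stmt) (hK : KapStmt) {s k : ℕ} (hk : 3 ≤ k)
    (L : Fin (2 * k ^ 2 + k) → F) (hL1 : ∀ i, ∃ θ ∈ M (s + 1) k, L i = θ (H (s + 1)))
    (hL2 : ∀ D : Subgroup F, (∀ ψ ∈ Tor (s + 1) k, ∀ x ∈ D, ψ x ∈ D) → zeta (s + 1) k ∈ D →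
      (∀ i, L i ∈ D) → Delta (s + 1) k ≤ D)
    (K : Subgroup (MulAut F)) (hT : Tor (s + 1) k ≤ K) (hz : kap s (zeta (s + 1) k) ∈ K)
    (hL : ∀ i, kap s (L i) ∈ K) : Ka s (k + 1) ≤ K := by
  have hLF : ∀ i, L i ∈ FS (s + 1) k ∧ cl (L i) = 1 := by
    intro i
    obtain ⟨θ, hθ, h⟩ := hL1 i
    rw [h]
    exact M_Tor_conj hθ _ (H_mem_FS le_rfl (by omega)) (cl_H _)
  have h1 := hL2 (kapPre hK s k K) ?_ ⟨zeta_mem_FS le_rfl le_rfl, cl_zeta _ _, hz⟩
    (fun i => ⟨(hLF i).1, (hLF i).2, hL i⟩)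
  · unfold Ka
    rw [Subgroup.closure_le]
    rintro φ ⟨u, hu, hc, rfl⟩
    rw [Nat.add_sub_cancel] at hu
    exact (h1 (hB _ _ hk u hu hc)).2.2
  · rintro ψ hψ x ⟨hx1, hx2, hx3⟩
    refine ⟨M_FS hψ.1 hx1, (M_Tor_conj hψ.1 x hx1 hx2).2, ?_⟩
    rw [← hK.equiv s k x ψ hψ.1 hx1 hx2]
    exact mul_mem (mul_mem (hT hψ) hx3) (inv_mem (hT hψ))

theorem Kb_le (hP : PGStmt) (hB : B1Stmt) (hK : KapStmt) {s k : ℕ} (hk : 3 ≤ k)
    (L : Fin (2 * k ^ 2 + k) → F) (hL1 : ∀ i, ∃ θ ∈ M (s + 1) k, L i = θ (H (s + 1)))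
    (hL2 : ∀ D : Subgroup F, (∀ ψ ∈ Tor (s + 1) k, ∀ x ∈ D, ψ x ∈ D) → zeta (s + 1) k ∈ D →
      (∀ i, L i ∈ D) → Delta (s + 1) k ≤ D)
    (K : Subgroup (MulAut F)) (hT : Tor (s + 1) k ≤ K) (hz : kapb s (zeta (s + 1) k) ∈ K)
    (hL : ∀ i, kapb s (L i) ∈ K) : Kb s (k + 1) ≤ K := by
  -- conjugate everything by `w s`
  let c : MulAut F →* MulAut F := (MulAut.conj (w s)).toMonoidHom
  have hc : ∀ φ, c φ = w s * φ * (w s)⁻¹ := fun φ => rfl
  have h1 := Ka_le hP hB hK hk L hL1 hL2 (K.comap c) ?_ hz hL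
  · unfold Kb
    rw [Subgroup.closure_le]
    rintro φ ⟨u, hu, hcu, rfl⟩
    exact h1 (Subgroup.subset_closure ⟨u, hu, hcu, rfl⟩)
  · intro ψ hψ
    change c ψ ∈ K
    rw [hc, w_comm hψ.1, mul_inv_cancel_right]
    exact hT hψ

/-! ## `Tor s h` is generated by `mh h` elements -/

theorem kap_mem (hK : KapStmt) {s k : ℕ} {u : F} (hu : u ∈ FS (s + 1) k) (hc : cl u = 1) :
    kap s u ∈ Tor s (k + 1) ∧ kapb s u ∈ Tor s (k + 1) :=
  ⟨hK.tor s k u hu hc, Tor_conj (hK.tor s k u hu hc) (w_mem_M le_rfl (by omega))⟩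

theorem torGen (hP : PGStmt) (hB : B1Stmt) (hK : KapStmt) (hG : GStmt) (hH : HStmt) :
    ∀ h, 3 ≤ h → ∀ s, GenN (Tor s h) (mh h) := by
  intro h hh
  induction h, hh using Nat.le_induction with
  | base => intro s; rw [mh_three]; exact hH s
  | succ k hk ih =>
    intro s
    obtain ⟨t, ht⟩ := ih (s + 1)
    obtain ⟨L, hL1, hL2⟩ := hP (s + 1) k hk
    have hLF : ∀ i, L i ∈ FS (s + 1) k ∧ cl (L i) = 1 := by
      intro i
      obtain ⟨θ, hθ, h⟩ := hL1 i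
      rw [h]
      exact M_Tor_conj hθ _ (H_mem_FS le_rfl (by omega)) (cl_H _)
    have hzF : zeta (s + 1) k ∈ FS (s + 1) k := zeta_mem_FS le_rfl le_rfl
    let fD : Fin k ⊕ Fin k ⊕ Unit → MulAut F :=
      Sum.elim (fun i => Da s i) (Sum.elim (fun i => Db s i) (fun _ => TD s))
    let fA : Fin (2 * k ^ 2 + k) ⊕ Unit → MulAut F :=
      Sum.elim (fun i => kap s (L i)) (fun _ => kap s (zeta (s + 1) k))
    let fB : Fin (2 * k ^ 2 + k) ⊕ Unit → MulAut F :=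
      Sum.elim (fun i => kapb s (L i)) (fun _ => kapb s (zeta (s + 1) k))
    let f : Fin (mh k) ⊕ ((Fin (2 * k ^ 2 + k) ⊕ Unit) ⊕ ((Fin (2 * k ^ 2 + k) ⊕ Unit) ⊕
      (Fin k ⊕ Fin k ⊕ Unit))) → MulAut F := Sum.elim t (Sum.elim fA (Sum.elim fB fD))
    have hcard : Fintype.card (Fin (mh k) ⊕ ((Fin (2 * k ^ 2 + k) ⊕ Unit) ⊕
        ((Fin (2 * k ^ 2 + k) ⊕ Unit) ⊕ (Fin k ⊕ Fin k ⊕ Unit)))) = mh (k + 1) := by
      simp only [Fintype.card_sum, Fintype.card_fin, Fintype.card_unit]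
      rw [← mh_succ]; ring
    have hgen := genN_of_fintype f hcard
    have heq : Subgroup.closure (Set.range f) = Tor s (k + 1) := by
      have hD : ∀ i, Da s i ∈ Dp s (k + 1) ∨ k ≤ i := by
        intro i
        by_cases hi : i < k
        · left; exact Subgroup.subset_closure (Or.inl ⟨i, by omega, Or.inl rfl⟩)
        · right; omega
      have hJ : JG s (k + 1) = Tor s (k + 1) := (hG s (k + 1) (by omega)).symm
      have hJ1 : Tor (s + 1) k ≤ Tor s (k + 1) := Tor_mono (by omega) (by omega)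
      have hJ4 : Dp s (k + 1) ≤ Tor s (k + 1) := by
        rw [← hJ]; exact le_sup_right
      apply le_antisymm
      · rw [Subgroup.closure_le]
        rintro _ ⟨x, rfl⟩
        rcases x with i | (i | i) | (i | i) | i | i | i
        · have : t i ∈ Tor (s + 1) k := by rw [← ht]; exact Subgroup.subset_closure ⟨i, rfl⟩
          exact hJ1 this
        · exact (kap_mem hK (hLF i).1 (hLF i).2).1
        · exact (kap_mem hK hzF (cl_zeta _ _)).1
        · exact (kap_mem hK (hLF i).1 (hLF i).2).2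
        · exact (kap_mem hK hzF (cl_zeta _ _)).2
        · exact hJ4 (Subgroup.subset_closure (Or.inl ⟨i, by omega, Or.inl rfl⟩))
        · exact hJ4 (Subgroup.subset_closure (Or.inl ⟨i, by omega, Or.inr rfl⟩))
        · exact hJ4 (Subgroup.subset_closure (Or.inr rfl))
      · rw [← hJ]
        have hr : ∀ x, f x ∈ Subgroup.closure (Set.range f) := fun x =>
          Subgroup.subset_closure ⟨x, rfl⟩
        have hT : Tor (s + 1) k ≤ Subgroup.closure (Set.range f) := by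
          rw [← ht, Subgroup.closure_le]
          rintro _ ⟨i, rfl⟩
          exact hr (Sum.inl i)
        unfold JG
        rw [Nat.add_sub_cancel]
        refine sup_le (sup_le (sup_le hT ?_) ?_) ?_
        · exact Ka_le hP hB hK hk L hL1 hL2 _ hT (hr (Sum.inr (Sum.inl (Sum.inr ()))))
            (fun i => hr (Sum.inr (Sum.inl (Sum.inl i))))
        · exact Kb_le hP hB hK hk L hL1 hL2 _ hT (hr (Sum.inr (Sum.inr (Sum.inl (Sum.inr ())))))
            (fun i => hr (Sum.inr (Sum.inr (Sum.inl (Sum.inl i)))))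
        · unfold Dp
          rw [Subgroup.closure_le]
          rintro φ (⟨i, hi, rfl | rfl⟩ | h)
          · exact hr (Sum.inr (Sum.inr (Sum.inr (Sum.inl ⟨i, by omega⟩))))
          · exact hr (Sum.inr (Sum.inr (Sum.inr (Sum.inr (Sum.inl ⟨i, by omega⟩)))))
          · rw [Set.mem_singleton_iff] at h
            subst h
            exact hr (Sum.inr (Sum.inr (Sum.inr (Sum.inr (Sum.inr ())))))
    rwa [heq] at hgen

end Pool.Agent.Torelli
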