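import Pool.Agent.Torelli.Inter

/-!
# Torelli project, FIN: the closed surface group

`Q g = F / <<zeta 0 g, of n (n ≥ 2g)>>` is isomorphic to the frozen closed surface group `PiG g`;
`bar g : StF 0 g →* MulAut (Q g)`; reduction of the closed statement to `LiftingC` and `OpenGen`.
-/

set_option autoImplicit false

namespace Pool.Agent.Torelli

noncomputable section

/-! ## The closed surface group -/

/-- The frozen relator. -/
def zetaFin (g : ℕ) : FreeGroup (Fin 2 × Fin g) :=
  (List.ofFn (fun i : Fin g =>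
            FreeGroup.of ((0 : Fin 2), i) * FreeGroup.of ((1 : Fin 2), i) *
              (FreeGroup.of ((0 : Fin 2), i))⁻¹ * (FreeGroup.of ((1 : Fin 2), i))⁻¹)).prod

/-- The frozen closed surface group. -/
abbrev PiG (g : ℕ) : Type := PresentedGroup ({zetaFin g} : Set (FreeGroup (Fin 2 × Fin g)))

/-- The relators of the closed surface group as a quotient of `F`. -/
def relQ (g : ℕ) : Set F := {zeta 0 g} ∪ {x | ∃ n, 2 * g ≤ n ∧ x = FreeGroup.of n}

/-- The kernel. -/
def KQ (g : ℕ) : Subgroup F := Subgroup.normalClosure (relQ g)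

instance KQ_normal (g : ℕ) : (KQ g).Normal := Subgroup.normalClosure_normal

/-- The closed surface group as a quotient of `F`. -/
abbrev Q (g : ℕ) : Type := F ⧸ KQ g

def toQ (g : ℕ) : F →* Q g := QuotientGroup.mk' (KQ g)

theorem toQ_surj (g : ℕ) : Function.Surjective (toQ g) := QuotientGroup.mk'_surjective _

theorem toQ_eq_one {g : ℕ} {x : F} : toQ g x = 1 ↔ x ∈ KQ g := QuotientGroup.eq_one_iff x

theorem toQ_eq {g : ℕ} {x y : F} : toQ g x = toQ g y ↔ x⁻¹ * y ∈ KQ g := by
  rw [← toQ_eq_one, map_mul, map_inv, inv_mul_eq_one]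

theorem zeta_mem_KQ (g : ℕ) : zeta 0 g ∈ KQ g := Subgroup.subset_normalClosure (Or.inl rfl)

theorem of_mem_KQ {g n : ℕ} (h : 2 * g ≤ n) : (FreeGroup.of n : F) ∈ KQ g :=
  Subgroup.subset_normalClosure (Or.inr ⟨n, h, rfl⟩)

theorem toQ_zeta (g : ℕ) : toQ g (zeta 0 g) = 1 := toQ_eq_one.2 (zeta_mem_KQ g)

theorem toQ_of {g n : ℕ} (h : 2 * g ≤ n) : toQ g (FreeGroup.of n) = 1 :=
  toQ_eq_one.2 (of_mem_KQ h)

/-- inclusion of letters -/
def uF (g : ℕ) : FreeGroup (Fin 2 × Fin g) →* F :=
  FreeGroup.lift (fun p => FreeGroup.of (2 * (p.2 : ℕ) + (p.1 : ℕ)))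

/-- retraction -/
def vF (g : ℕ) : F →* FreeGroup (Fin 2 × Fin g) :=
  FreeGroup.lift (fun n => if h : n < 2 * g then
    FreeGroup.of ((⟨n % 2, Nat.mod_lt _ (by norm_num)⟩ : Fin 2), (⟨n / 2, by omega⟩ : Fin g)) else 1)

theorem uF_of (g : ℕ) (p : Fin 2 × Fin g) :
    uF g (FreeGroup.of p) = FreeGroup.of (2 * (p.2 : ℕ) + (p.1 : ℕ)) := by
  simp [uF]

theorem vF_of_lt (g n : ℕ) (h : n < 2 * g) : vF g (FreeGroup.of n) =
    FreeGroup.of ((⟨n % 2, Nat.mod_lt _ (by norm_num)⟩ : Fin 2), (⟨n / 2, by omega⟩ : Fin g)) := by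
  simp [vF, h]

theorem vF_of_ge (g n : ℕ) (h : 2 * g ≤ n) : vF g (FreeGroup.of n) = 1 := by
  simp [vF, not_lt.2 h]

theorem vF_uF (g : ℕ) (x : FreeGroup (Fin 2 × Fin g)) : vF g (uF g x) = x := by
  have : (vF g).comp (uF g) = MonoidHom.id _ := by
    ext ⟨p, i⟩
    have hp : (p : ℕ) < 2 := p.2
    have hi : (i : ℕ) < g := i.2
    have h1 : 2 * (i : ℕ) + (p : ℕ) < 2 * g := by omega
    have h2 : (2 * (i : ℕ) + (p : ℕ)) % 2 = p := by omega
    have h3 : (2 * (i : ℕ) + (p : ℕ)) / 2 = i := by omega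
    rw [MonoidHom.comp_apply, uF_of, vF_of_lt _ _ h1]
    simp only [h2, h3, MonoidHom.id_apply]
  exact DFunLike.congr_fun this x

theorem uF_zeta (g : ℕ) : uF g (zetaFin g) = zeta 0 g := by
  unfold zetaFin zeta
  rw [map_list_prod, List.map_ofFn]
  congr 1
  apply List.ext_getElem
  · simp
  · intro n h1 h2
    simp only [List.getElem_ofFn, List.getElem_map, List.getElem_range, Function.comp, map_mul,
      map_inv, uF_of, H, a, b]
    simp

theorem vF_zeta (g : ℕ) : vF g (zeta 0 g) = zetaFin g := by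
  rw [← uF_zeta, vF_uF]

theorem uF_vF (g : ℕ) (x : F) : toQ g (uF g (vF g x)) = toQ g x := by
  have : ((toQ g).comp (uF g)).comp (vF g) = toQ g := by
    apply hom_ext_of
    intro n
    by_cases h : n < 2 * g
    · simp only [MonoidHom.comp_apply]
      rw [vF_of_lt _ _ h, uF_of]
      have : 2 * (n / 2) + n % 2 = n := by omega
      simp only [this]
    · simp only [MonoidHom.comp_apply]
      rw [vF_of_ge _ _ (by omega), map_one, map_one]
      exact (toQ_of (by omega)).symm
  exact DFunLike.congr_fun this x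

/-- `uF (vF x) = x` for words in the first `2g` letters -/
theorem uF_vF_FS (g : ℕ) {x : F} (hx : x ∈ FS 0 g) : uF g (vF g x) = x := by
  have : FS 0 g ≤ MonoidHom.eqLocus ((uF g).comp (vF g)) (MonoidHom.id F) := by
    unfold FS
    rw [Subgroup.closure_le]
    rintro x ⟨n, hn1, hn2, rfl⟩
    change uF g (vF g (FreeGroup.of n)) = FreeGroup.of n
    rw [vF_of_lt _ _ (by omega), uF_of]
    have : 2 * (n / 2) + n % 2 = n := by omega
    simp only [this]
  exact this hx

theorem uF_mem_FS (g : ℕ) (x : FreeGroup (Fin 2 × Fin g)) : uF g x ∈ FS 0 g := by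
  have : (⊤ : Subgroup _) ≤ (FS 0 g).comap (uF g) := by
    rw [← FreeGroup.closure_range_of, Subgroup.closure_le]
    rintro _ ⟨⟨p, i⟩, rfl⟩
    have hp : (p : ℕ) < 2 := p.2
    have hi : (i : ℕ) < g := i.2
    change uF g (FreeGroup.of (p, i)) ∈ FS 0 g
    rw [uF_of]
    exact of_mem_FS (by omega) (by simp only; omega)
  exact this (Subgroup.mem_top x)

def PiGtoQ (g : ℕ) : PiG g →* Q g :=
  QuotientGroup.map _ _ (uF g) (by
    apply Subgroup.normalClosure_le_normal
    rintro y hy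
    rw [Set.mem_singleton_iff] at hy
    subst hy
    change uF g (zetaFin g) ∈ KQ g
    rw [uF_zeta]
    exact zeta_mem_KQ g)

theorem vF_KQ (g : ℕ) : KQ g ≤ (Subgroup.normalClosure ({zetaFin g} : Set _)).comap (vF g) := by
  apply Subgroup.normalClosure_le_normal
  rintro y (hy | ⟨n, hn, rfl⟩)
  · rw [Set.mem_singleton_iff] at hy
    subst hy
    change vF g (zeta 0 g) ∈ Subgroup.normalClosure ({zetaFin g} : Set _)
    rw [vF_zeta]
    exact Subgroup.subset_normalClosure rfl
  · change vF g (FreeGroup.of n) ∈ Subgroup.normalClosure ({zetaFin g} : Set _)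
    rw [vF_of_ge _ _ hn]
    exact Subgroup.one_mem _

def QtoPiG (g : ℕ) : Q g →* PiG g := QuotientGroup.map _ _ (vF g) (vF_KQ g)

/-- the frozen closed surface group is `Q g` -/
def isoQ (g : ℕ) : PiG g ≃* Q g where
  toFun := PiGtoQ g
  invFun := QtoPiG g
  left_inv := fun y => by
    obtain ⟨x, rfl⟩ := QuotientGroup.mk_surjective y
    change (QuotientGroup.mk (vF g (uF g x)) : PiG g) = _
    rw [vF_uF]
  right_inv := fun y => by
    obtain ⟨x, rfl⟩ := toQ_surj g y
    exact uF_vF g x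
  map_mul' := fun x y => map_mul _ x y

/-- an element of `KQ g` in the first `2g` letters is in the normal closure of `zeta 0 g` -/
theorem KQ_inf_FS {g : ℕ} {x : F} (hx : x ∈ KQ g) (hx' : x ∈ FS 0 g) :
    x ∈ Subgroup.normalClosure ({zeta 0 g} : Set F) := by
  have h1 := vF_KQ g hx
  have h2 : Subgroup.normalClosure ({zetaFin g} : Set _) ≤
      (Subgroup.normalClosure ({zeta 0 g} : Set F)).comap (uF g) := by
    apply Subgroup.normalClosure_le_normal
    rintro y hy
    rw [Set.mem_singleton_iff] at hy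
    subst hy
    change uF g (zetaFin g) ∈ Subgroup.normalClosure ({zeta 0 g} : Set F)
    rw [uF_zeta]
    exact Subgroup.subset_normalClosure rfl
  have h3 : uF g (vF g x) ∈ Subgroup.normalClosure ({zeta 0 g} : Set F) := h2 h1
  rwa [uF_vF_FS g hx'] at h3

/-- every element of `Q g` has a representative in the first `2g` letters -/
theorem exists_rep (g : ℕ) (y : Q g) : ∃ x ∈ FS 0 g, toQ g x = y := by
  obtain ⟨x, rfl⟩ := toQ_surj g y
  exact ⟨uF g (vF g x), uF_mem_FS g _, uF_vF g x⟩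

theorem normalClosure_le_KQ (g : ℕ) : Subgroup.normalClosure ({zeta 0 g} : Set F) ≤ KQ g :=
  Subgroup.normalClosure_mono (fun _ hx => Or.inl hx)

/-! ## IA automorphisms -/

/-- Acting trivially on the abelianization. -/
def IsIA {G : Type*} [Group G] (φ : MulAut G) : Prop :=
  ∀ x : G, Abelianization.of (φ x) = Abelianization.of x

/-- The subgroup of IA automorphisms. -/
def IAut (G : Type*) [Group G] : Subgroup (MulAut G) where
  carrier := {φ | IsIA φ}
  one_mem' := fun x => rfl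
  mul_mem' := fun {φ ψ} hφ hψ x => by rw [MulAut.mul_apply, hφ, hψ]
  inv_mem' := fun {φ} hφ x => by
    have := hφ (φ⁻¹ x)
    rw [MulAut.apply_inv_self] at this
    exact this.symm

theorem isIA_conj {G : Type*} [Group G] (x : G) : IsIA (MulAut.conj x) := by
  intro y
  simp [MulAut.conj_apply, mul_comm (Abelianization.of x)]

/-- `IA(G)/Inn(G)` is generated by `N` elements. -/
def GenBy (G : Type*) [Group G] (N : ℕ) : Prop :=
  ∃ f : Fin N → MulAut G,
    (∀ i : Fin N, ∀ x : G, Abelianization.of (f i x) = Abelianization.of x) ∧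
    ∀ ψ : MulAut G, (∀ x : G, Abelianization.of (ψ x) = Abelianization.of x) →
      ψ ∈ Subgroup.closure (Set.range f ∪ Set.range (fun x : G => MulAut.conj x))

theorem genBy_congr {G H : Type*} [Group G] [Group H] (e : G ≃* H) {N : ℕ} (h : GenBy H N) :
    GenBy G N := by
  obtain ⟨f, hf, hgen⟩ := h
  have key : ∀ φ : MulAut H, IsIA φ → IsIA ((MulAut.congr e).symm φ) := by
    intro φ hφ x
    have h1 := hφ (e x)
    have h2 := congrArg (Abelianization.map e.symm.toMonoidHom) h1
    simp only [Abelianization.map_of] at h2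
    have h3 : (e.symm.toMonoidHom) (φ (e x)) = ((MulAut.congr e).symm φ) x := by
      simp [MulAut.congr]
    have h4 : (e.symm.toMonoidHom) (e x) = x := by simp
    rw [h3, h4] at h2
    exact h2
  have key2 : ∀ ψ : MulAut G, IsIA ψ → IsIA (MulAut.congr e ψ) := by
    intro φ hφ x
    have h1 := hφ (e.symm x)
    have h2 := congrArg (Abelianization.map e.toMonoidHom) h1
    simp only [Abelianization.map_of] at h2
    have h3 : (e.toMonoidHom) (φ (e.symm x)) = (MulAut.congr e φ) x := by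
      simp [MulAut.congr]
    have h4 : (e.toMonoidHom) (e.symm x) = x := by simp
    rw [h3, h4] at h2
    exact h2
  refine ⟨fun i => (MulAut.congr e).symm (f i), fun i => key _ (hf i), ?_⟩
  intro ψ hψ
  have h1 := hgen _ (key2 ψ hψ)
  have h2 : (MulAut.congr e).symm (MulAut.congr e ψ) ∈
     (Subgroup.closure (Set.range f ∪ Set.range (fun x : H => MulAut.conj x))).map
        (MulAut.congr e).symm.toMonoidHom :=
    Subgroup.mem_map_of_mem _ h1
  rw [MulEquiv.symm_apply_apply] at h2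
  rw [MonoidHom.map_closure] at h2
  refine Subgroup.closure_mono ?_ h2
  rintro _ ⟨φ, hφ | hφ, rfl⟩
  · obtain ⟨i, rfl⟩ := hφ
    exact Or.inl ⟨i, rfl⟩
  · obtain ⟨x, rfl⟩ := hφ
    refine Or.inr ⟨e.symm x, ?_⟩
    ext y
    simp [MulAut.congr, MulAut.conj_apply]

/-! ## The action of `StF 0 g` on `Q g` -/

theorem StF_desc (g : ℕ) (φ : MulAut F) (h : φ ∈ StF 0 g) : KQ g ≤ (KQ g).comap φ.toMonoidHom := by
  apply Subgroup.normalClosure_le_normal
  rintro y (hy | ⟨n, hn, rfl⟩)
  · rw [Set.mem_singleton_iff] at hy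
    subst hy
    change φ (zeta 0 g) ∈ KQ g
    rw [h.1]
    exact zeta_mem_KQ g
  · change φ (FreeGroup.of n) ∈ KQ g
    rw [h.2 n (by omega)]
    exact of_mem_KQ hn

/-- The endomorphism of the closed surface group induced by an element of `StF 0 g`. -/
def barHom (g : ℕ) (φ : StF 0 g) : Q g →* Q g :=
  QuotientGroup.map _ _ (φ.1.toMonoidHom) (StF_desc g φ.1 φ.2)

theorem barHom_mul (g : ℕ) (φ ψ : StF 0 g) (y : Q g) :
    barHom g (φ * ψ) y = barHom g φ (barHom g ψ y) := by
  obtain ⟨x, rfl⟩ := toQ_surj g y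
  rfl

theorem barHom_one (g : ℕ) (y : Q g) : barHom g 1 y = y := by
  obtain ⟨x, rfl⟩ := toQ_surj g y
  rfl

/-- The homomorphism `StF 0 g → Aut (Q g)`. -/
def bar (g : ℕ) : StF 0 g →* MulAut (Q g) where
  toFun φ :=
    { toFun := barHom g φ
      invFun := barHom g φ⁻¹
      left_inv := fun y => by rw [← barHom_mul, inv_mul_cancel, barHom_one]
      right_inv := fun y => by rw [← barHom_mul, mul_inv_cancel, barHom_one]
      map_mul' := fun x y => map_mul _ x y }
  map_one' := by
    ext y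
    exact barHom_one g y
  map_mul' φ ψ := by
    ext y
    exact barHom_mul g φ ψ y

theorem bar_toQ (g : ℕ) (φ : StF 0 g) (x : F) : bar g φ (toQ g x) = toQ g (φ.1 x) := rfl

theorem isIA_bar (g : ℕ) (φ : StF 0 g) (h : φ.1 ∈ IA) : IsIA (bar g φ) := by
  intro y
  obtain ⟨x, rfl⟩ := toQ_surj g y
  rw [bar_toQ]
  have h1 := cl_eq_iff.1 (h x)
  have := congrArg (Abelianization.map (toQ g)) h1
  simpa only [Abelianization.map_of] using this

/-- the class of an element of `FS 0 g` can be read off in `Q g` -/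
theorem cl_eq_of_toQ {g : ℕ} {x y : F} (hx : x ∈ FS 0 g) (hy : y ∈ FS 0 g)
    (h : Abelianization.of (toQ g x) = Abelianization.of (toQ g y)) : cl x = cl y := by
  have hk : KQ g ≤ (cl.comp ((uF g).comp (vF g))).ker := by
    intro z hz
    have h1 := vF_KQ g hz
    have h2 : Subgroup.normalClosure ({zetaFin g} : Set _) ≤ (cl.comp (uF g)).ker := by
      apply Subgroup.normalClosure_le_normal
      rintro y hy
      rw [Set.mem_singleton_iff] at hy
      subst hy
      change cl (uF g (zetaFin g)) = 1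
      rw [uF_zeta, cl_zeta]
    exact h2 h1
  have h1 := congrArg (Abelianization.lift (QuotientGroup.lift (KQ g) _ hk)) h
  simp only [Abelianization.lift_apply_of] at h1
  change cl (uF g (vF g x)) = cl (uF g (vF g y)) at h1
  rwa [uF_vF_FS g hx, uF_vF_FS g hy] at h1

/-! ## Lifting -/

/-- Closed lifting, as a property. -/
def LiftingC (g : ℕ) : Prop :=
  ∀ ψ : MulAut (Q g), IsIA ψ → ∃ (φ : StF 0 g) (x : Q g), φ.1 ∈ Tor 0 g ∧ ψ = MulAut.conj x * bar g φ

/-- the product `[X (2s), X (2s+1)] ...` -/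
def cprod (s h : ℕ) (X : ℕ → F) : F :=
  ((List.range h).map fun j => X (2 * (s + j)) * X (2 * (s + j) + 1) * (X (2 * (s + j)))⁻¹ *
    (X (2 * (s + j) + 1))⁻¹).prod

/-- statement of the open lifting theorem (part AB) -/
def LiftStmt : Prop := ∀ (s h : ℕ) (X : ℕ → F), cprod s h X = zeta s h →
  ∃ θ ∈ M s h, ∀ n, 2 * s ≤ n → n < 2 * (s + h) → θ (FreeGroup.of n) = X n

/-- statement of the closed lifting theorem (part C) -/
def ClosedStmt : Prop := ∀ (g : ℕ) (_ : 1 ≤ g) (X : ℕ → F),
  (∀ n < 2 * g, cl (X n) = cl (FreeGroup.of n)) →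
  cprod 0 g X ∈ Subgroup.normalClosure ({zeta 0 g} : Set F) →
  ∃ (X' : ℕ → F) (f : F), (∀ n < 2 * g, (X n)⁻¹ * X' n ∈
    Subgroup.normalClosure ({zeta 0 g} : Set F)) ∧ cprod 0 g X' = f * zeta 0 g * f⁻¹

theorem map_cprod {G : Type*} [Group G] (p : F →* G) (s h : ℕ) (X : ℕ → F) :
    p (cprod s h X) = ((List.range h).map fun j => p (X (2 * (s + j))) * p (X (2 * (s + j) + 1)) *
      (p (X (2 * (s + j))))⁻¹ * (p (X (2 * (s + j) + 1)))⁻¹).prod := by
  unfold cprod
  rw [map_list_prod, List.map_map]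
  congr 1
  apply List.map_congr_left
  intro j _
  simp

theorem cprod_of (s h : ℕ) : cprod s h (fun n => FreeGroup.of n) = zeta s h := rfl

theorem cprod_mem_FS (g : ℕ) (X : ℕ → F) (hX : ∀ n < 2 * g, X n ∈ FS 0 g) :
    cprod 0 g X ∈ FS 0 g := by
  unfold cprod
  apply Subgroup.list_prod_mem
  intro x hx
  rw [List.mem_map] at hx
  obtain ⟨j, hj, rfl⟩ := hx
  rw [List.mem_range] at hj
  have h1 := hX (2 * (0 + j)) (by omega)
  have h2 := hX (2 * (0 + j) + 1) (by omega)
  exact mul_mem (mul_mem (mul_mem h1 h2) (inv_mem h1)) (inv_mem h2)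

theorem cprod_conj (s h : ℕ) (X : ℕ → F) (f : F) :
    cprod s h (fun n => f⁻¹ * X n * f) = f⁻¹ * cprod s h X * f := by
  have := map_cprod (MulAut.conj f⁻¹).toMonoidHom s h X
  simp only [MulEquiv.toMonoidHom_eq_coe, MonoidHom.coe_coe, MulAut.conj_apply, inv_inv] at this
  rw [this]
  rfl

theorem liftingC_of (hL : LiftStmt) (hC : ClosedStmt) (g : ℕ) (hg : 1 ≤ g) : LiftingC g := by
  intro ψ hψ
  -- representatives
  choose X hX1 hX2 using fun n : ℕ => exists_rep g (ψ (toQ g (FreeGroup.of n)))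
  have hcl : ∀ n < 2 * g, cl (X n) = cl (FreeGroup.of n) := by
    intro n hn
    apply cl_eq_of_toQ (hX1 n) (of_mem_FS (by omega) (by omega))
    rw [hX2]
    exact hψ _
  have hprod : cprod 0 g X ∈ Subgroup.normalClosure ({zeta 0 g} : Set F) := by
    apply KQ_inf_FS _ (cprod_mem_FS g X fun n _ => hX1 n)
    rw [← toQ_eq_one, map_cprod]
    simp only [hX2]
    have h1 := map_cprod (ψ.toMonoidHom.comp (toQ g)) 0 g (fun n => FreeGroup.of n)
    rw [cprod_of] at h1
    simp only [MonoidHom.comp_apply, toQ_zeta, map_one] at h1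
    exact h1.symm
  obtain ⟨X', f, hX', hf⟩ := hC g hg X hcl hprod
  obtain ⟨θ, hθ, hθX⟩ := hL 0 g (fun n => f⁻¹ * X' n * f) (by
    rw [cprod_conj, hf]; group)
  have hθS : θ ∈ StF 0 g := M_le_StF 0 g hθ
  have hcl' : ∀ n < 2 * g, cl (X' n) = cl (X n) := by
    intro n hn
    have h1 : Subgroup.normalClosure ({zeta 0 g} : Set F) ≤ cl.ker := by
      apply Subgroup.normalClosure_le_normal
      rintro y hy
      rw [Set.mem_singleton_iff] at hy
      subst hy
      exact cl_zeta 0 g
    have h2 : cl ((X n)⁻¹ * X' n) = 1 := h1 (hX' n hn)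
    rw [map_mul, map_inv, inv_mul_eq_one] at h2
    exact h2.symm
  have hIA : θ ∈ IA := by
    rw [mem_IA_iff_of]
    intro n
    by_cases hn : n < 2 * g
    · rw [hθX n (by omega) (by omega)]
      simp only [map_mul, map_inv]
      rw [hcl' n hn, hcl n hn, mul_right_comm, inv_mul_cancel, one_mul]
    · rw [M_fix_of hθ (by omega)]
  refine ⟨⟨θ, hθS⟩, toQ g f, ⟨hθ, hIA⟩, ?_⟩
  -- compare on letters
  have hhom : ψ.toMonoidHom.comp (toQ g) =
      (MulAut.conj (toQ g f) * bar g ⟨θ, hθS⟩).toMonoidHom.comp (toQ g) := by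
    apply hom_ext_of
    intro n
    change ψ (toQ g (FreeGroup.of n)) = toQ g f * toQ g (θ (FreeGroup.of n)) * (toQ g f)⁻¹
    by_cases hn : n < 2 * g
    · rw [hθX n (by omega) (by omega), ← hX2 n]
      have h1 : toQ g (X n) = toQ g (X' n) := toQ_eq.2 (normalClosure_le_KQ g (hX' n hn))
      rw [h1]
      simp only [map_mul, map_inv]
      group
    · rw [M_fix_of hθ (by omega), toQ_of (by omega)]
      simp
  ext y
  obtain ⟨x, rfl⟩ := toQ_surj g y
  exact DFunLike.congr_fun hhom x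

/-! ## The reduction -/

/-- `Tor 0 g` is generated by `N` elements modulo a set of elements acting on `Q g` as inner
automorphisms. -/
def OpenGen (g N : ℕ) : Prop :=
  ∃ t : Fin N → MulAut F, (∀ i, t i ∈ Tor 0 g) ∧ ∃ U : Set (MulAut F),
    (∀ u ∈ U, u ∈ Tor 0 g ∧ ∃ x : F, ∀ n < 2 * g,
      toQ g (u (FreeGroup.of n)) = toQ g (x * FreeGroup.of n * x⁻¹)) ∧
    Tor 0 g ≤ Subgroup.closure (Set.range t ∪ U)

theorem genBy_of_openGen (g N : ℕ) (hl : LiftingC g) (ho : OpenGen g N) : GenBy (Q g) N := by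
  obtain ⟨t, htT, U, hU, ht⟩ := ho
  have hT : Tor 0 g ≤ StF 0 g := (Tor_le_M 0 g).trans (M_le_StF 0 g)
  have hcl : ∀ φ (hφ : φ ∈ Subgroup.closure (Set.range t ∪ U)) (h : φ ∈ StF 0 g),
      bar g ⟨φ, h⟩ ∈ Subgroup.closure
        (Set.range (fun i => bar g ⟨t i, hT (htT i)⟩) ∪
          Set.range (fun x : Q g => MulAut.conj x)) := by
    intro φ hφ
    induction hφ using Subgroup.closure_induction with
    | mem φ hφ =>
      intro h
      rcases hφ with ⟨i, rfl⟩ | hφ
      · exact Subgroup.subset_closure (Or.inl ⟨i, rfl⟩)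
      · obtain ⟨hT', x, hx⟩ := hU φ hφ
        refine Subgroup.subset_closure (Or.inr ⟨toQ g x, ?_⟩)
        have hhom : (MulAut.conj (toQ g x)).toMonoidHom.comp (toQ g) =
            (bar g ⟨φ, h⟩).toMonoidHom.comp (toQ g) := by
          apply hom_ext_of
          intro n
          change toQ g x * toQ g (FreeGroup.of n) * (toQ g x)⁻¹ = toQ g (φ (FreeGroup.of n))
          by_cases hn : n < 2 * g
          · rw [hx n hn, map_mul, map_mul, map_inv]
          · rw [h.2 n (by omega), toQ_of (by omega)]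
            simp
        ext y
        obtain ⟨x', rfl⟩ := toQ_surj g y
        exact DFunLike.congr_fun hhom x'
    | one =>
      intro h
      have : (⟨1, h⟩ : StF 0 g) = 1 := rfl
      rw [this, map_one]
      exact Subgroup.one_mem _
    | mul x y hx hy ihx ihy =>
      intro h
      have hx' : x ∈ StF 0 g := by
        refine (Subgroup.closure_le (StF 0 g)).2 ?_ hx
        rintro z (⟨i, rfl⟩ | hz)
        · exact hT (htT i)
        · exact hT (hU z hz).1
      have hy' : y ∈ StF 0 g := by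
        have := (StF 0 g).mul_mem ((StF 0 g).inv_mem hx') h
        rwa [inv_mul_cancel_left] at this
      have : (⟨x * y, h⟩ : StF 0 g) = ⟨x, hx'⟩ * ⟨y, hy'⟩ := rfl
      rw [this, map_mul]
      exact Subgroup.mul_mem _ (ihx hx') (ihy hy')
    | inv x hx ih =>
      intro h
      have hx' : x ∈ StF 0 g := by
        have := (StF 0 g).inv_mem h
        rwa [inv_inv] at this
      have : (⟨x⁻¹, h⟩ : StF 0 g) = ⟨x, hx'⟩⁻¹ := rfl
      rw [this, map_inv]
      exact Subgroup.inv_mem _ (ih hx')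
  refine ⟨fun i => bar g ⟨t i, hT (htT i)⟩, ?_, ?_⟩
  · intro i
    exact isIA_bar g _ (htT i).2
  · intro ψ hψ
    obtain ⟨φ, x, hφT, rfl⟩ := hl ψ hψ
    exact Subgroup.mul_mem _ (Subgroup.subset_closure (Or.inr ⟨x, rfl⟩))
      (hcl φ.1 (ht hφT) φ.2)

/-- The frozen statement S14217 from the lifting theorems and `OpenGen`. -/
theorem final_of (hL : LiftStmt) (hC : ClosedStmt)
    (hO : ∀ g, 4 ≤ g → OpenGen g ((4 * g ^ 3 - g) / 3)) :
    ∀ g : ℕ, 4 ≤ g → ∀ (G : Type) [Group G],
      Nonempty (G ≃* PiG g) →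
      ∃ f : Fin ((4 * g ^ 3 - g) / 3) → MulAut G,
        (∀ i : Fin ((4 * g ^ 3 - g) / 3), ∀ x : G,
            Abelianization.of (f i x) = Abelianization.of x) ∧
        ∀ ψ : MulAut G, (∀ x : G, Abelianization.of (ψ x) = Abelianization.of x) →
          ψ ∈ Subgroup.closure
            (Set.range f ∪ Set.range (fun x : G => MulAut.conj x)) := by
  rintro g hg G _ ⟨e⟩
  exact genBy_congr (e.trans (isoQ g))
    (genBy_of_openGen g _ (liftingC_of hL hC g (by omega)) (hO g hg))

end

end Pool.Agent.Torelli
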