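import Pool.Agent.Torelli.G.Main
import Pool.Agent.Torelli.AB.Main
import Pool.Agent.Torelli.B1.Main
import Pool.Agent.Torelli.C.Stmt
import Pool.Agent.Torelli.H3.Main

/-! # Final assembly from the parts PG, TYPE and E -/

set_option autoImplicit false

namespace Pool.Agent.Torelli

theorem BP_mem_Tor' {s h : ℕ} (hh : 2 ≤ h) : BP s ∈ Tor s h := by
  rw [BP]
  exact mul_mem (DX_mem_TorG le_rfl (by omega)) (inv_mem (TD_mem_TorG le_rfl (by omega)))

theorem JJ_le_TorG {s h : ℕ} (hh : 2 ≤ h) : JJ s h ≤ Tor s h := by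
  unfold JJ
  rw [Subgroup.closure_le]
  rintro φ ⟨θ, hθ, rfl | ⟨-, rfl⟩⟩
  · exact Tor_conj (TD_mem_TorG le_rfl (by omega)) hθ
  · exact Tor_conj (BP_mem_Tor' hh) hθ

theorem final (hP : PGStmt) (hTy : TypeStmt) (hE : EStmt) :
    ∀ g : ℕ, 4 ≤ g → ∀ (G : Type) [Group G],
      Nonempty (G ≃* PiG g) →
      ∃ f : Fin ((4 * g ^ 3 - g) / 3) → MulAut G,
        (∀ i : Fin ((4 * g ^ 3 - g) / 3), ∀ x : G,
            Abelianization.of (f i x) = Abelianization.of x) ∧
        ∀ ψ : MulAut G, (∀ x : G, Abelianization.of (ψ x) = Abelianization.of x) →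
          ψ ∈ Subgroup.closure
            (Set.range f ∪ Set.range (fun x : G => MulAut.conj x)) :=
  final_of_parts' liftStmt closedStmt hP hTy (B1.b1Stmt_of_lift liftStmt) hE
    (fun _ => H3.genN_three (le_antisymm (hE _ 3 (by omega)) (JJ_le_TorG (by omega))))

end Pool.Agent.Torelli
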