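import Pool.Agent.Torelli.Fin.Cnt

/-!
# Torelli project, CNT for the closed surface: `OpenGen g (ng g)` for `g ≥ 4`
-/

set_option autoImplicit false

namespace Pool.Agent.Torelli

/-- elements of `Tor 0 g` acting on `Q g` as inner automorphisms -/
def InnT (g : ℕ) : Set (MulAut F) := {u | u ∈ Tor 0 g ∧ ∃ x : F, ∀ n < 2 * g,
  toQ g (u (FreeGroup.of n)) = toQ g (x * FreeGroup.of n * x⁻¹)}

theorem toQ_conj_all {g : ℕ} {φ ψ : MulAut F} (hφ : φ ∈ StF 0 g) (hψ : ψ ∈ StF 0 g) {x : F}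
    (h : ∀ n < 2 * g, toQ g (φ (FreeGroup.of n)) = toQ g (x * ψ (FreeGroup.of n) * x⁻¹)) :
    ∀ y, toQ g (φ y) = toQ g (x * ψ y * x⁻¹) := by
  have : (toQ g).comp φ.toMonoidHom =
      ((MulAut.conj (toQ g x)).toMonoidHom.comp (toQ g)).comp ψ.toMonoidHom := by
    apply hom_ext_of
    intro n
    change toQ g (φ (FreeGroup.of n)) = toQ g x * toQ g (ψ (FreeGroup.of n)) * (toQ g x)⁻¹
    by_cases hn : n < 2 * g
    · rw [h n hn, map_mul, map_mul, map_inv]
    · rw [hφ.2 n (by omega), hψ.2 n (by omega), toQ_of (by omega)]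
      simp
  intro y
  have h1 := DFunLike.congr_fun this y
  rw [map_mul, map_mul, map_inv]
  exact h1

theorem InnT_of {g : ℕ} {φ ψ : MulAut F} (hφ : φ ∈ Tor 0 g) (hψ : ψ ∈ Tor 0 g) (x : F)
    (h : ∀ n < 2 * g, toQ g (φ (FreeGroup.of n)) = toQ g (x * ψ (FreeGroup.of n) * x⁻¹)) :
    φ * ψ⁻¹ ∈ InnT g := by
  have h1 := toQ_conj_all (M_le_StF 0 g hφ.1) (M_le_StF 0 g hψ.1) h
  refine ⟨mul_mem hφ (inv_mem hψ), x, fun n _ => ?_⟩
  rw [MulAut.mul_apply, h1, MulAut.apply_inv_self]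

theorem InnT_conj {g : ℕ} {u θ : MulAut F} (hu : u ∈ InnT g) (hθ : θ ∈ M 0 g) :
    θ * u * θ⁻¹ ∈ InnT g := by
  obtain ⟨huT, x, hx⟩ := hu
  have hθS : θ ∈ StF 0 g := M_le_StF 0 g hθ
  have h1 := toQ_conj_all (φ := u) (ψ := 1) (M_le_StF 0 g huT.1) (one_mem _) (x := x)
    (fun n hn => hx n hn)
  refine ⟨Tor_conj huT hθ, θ x, fun n _ => ?_⟩
  rw [MulAut.mul_apply, MulAut.mul_apply]
  have h2 := h1 (θ⁻¹ (FreeGroup.of n))
  have h3 := congrArg (bar g ⟨θ, hθS⟩) h2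
  rw [bar_toQ, bar_toQ] at h3
  rw [h3]
  simp only [MulAut.one_apply, map_mul, map_inv, MulAut.apply_inv_self]

/-- twist about the boundary curve of `B` -/
theorem exists_TZ (hL : LiftStmt) (s k : ℕ) : ∃ T ∈ Tor s k, ∀ n, 2 * s ≤ n → n < 2 * (s + k) →
    T (FreeGroup.of n) = zeta s k * FreeGroup.of n * (zeta s k)⁻¹ := by
  obtain ⟨T, hT, h⟩ := hL s k (fun n => zeta s k * FreeGroup.of n * (zeta s k)⁻¹) (by
    have := cprod_conj s k (fun n => FreeGroup.of n) (zeta s k)⁻¹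
    rw [cprod_of] at this
    simp only [inv_inv] at this
    rw [this]; group)
  refine ⟨T, ⟨hT, ?_⟩, h⟩
  change T ∈ IA
  rw [mem_IA_iff_of]
  intro n
  by_cases hn : 2 * s ≤ n ∧ n < 2 * (s + k)
  · rw [h n hn.1 hn.2, map_mul, map_mul, map_inv, cl_zeta, inv_one, mul_one, one_mul]
  · rw [M_fix_of hT (by omega)]

theorem cprod_succ' (s h : ℕ) (X : ℕ → F) : cprod s (h + 1) X =
    X (2 * s) * X (2 * s + 1) * (X (2 * s))⁻¹ * (X (2 * s + 1))⁻¹ * cprod (s + 1) h X := by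
  unfold cprod
  rw [List.range_succ_eq_map, List.map_cons, List.prod_cons, List.map_map]
  congr 2
  apply List.map_congr_left
  intro j _
  simp only [Function.comp]
  rw [show s + Nat.succ j = s + 1 + j by omega]

theorem cprod_congr (s h : ℕ) (X Y : ℕ → F)
    (hXY : ∀ n, 2 * s ≤ n → n < 2 * (s + h) → X n = Y n) : cprod s h X = cprod s h Y := by
  unfold cprod
  congr 1
  apply List.map_congr_left
  intro j hj
  rw [List.mem_range] at hj
  rw [hXY _ (by omega) (by omega), hXY _ (by omega) (by omega)]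

/-- the companion of `DX 0` -/
theorem exists_psiD (hL : LiftStmt) (s k : ℕ) (hk : 1 ≤ k) : ∃ T ∈ Tor s k,
    T (a s) = zeta s k * a s * (zeta s k)⁻¹ ∧ T (b s) = a s * b s * (a s)⁻¹ * (zeta s k)⁻¹ ∧
    ∀ n, 2 * s + 2 ≤ n → n < 2 * (s + k) → T (FreeGroup.of n) = a s * FreeGroup.of n * (a s)⁻¹ := by
  obtain ⟨k, rfl⟩ := Nat.exists_eq_add_of_le' hk
  set X : ℕ → F := fun n => if n = 2 * s then zeta s (k + 1) * a s * (zeta s (k + 1))⁻¹
    else if n = 2 * s + 1 then a s * b s * (a s)⁻¹ * (zeta s (k + 1))⁻¹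
    else a s * FreeGroup.of n * (a s)⁻¹ with hX
  have h0 : X (2 * s) = zeta s (k + 1) * a s * (zeta s (k + 1))⁻¹ := by simp [hX]
  have h1 : X (2 * s + 1) = a s * b s * (a s)⁻¹ * (zeta s (k + 1))⁻¹ := by simp [hX]
  have h2 : ∀ n, 2 * s + 2 ≤ n → X n = a s * FreeGroup.of n * (a s)⁻¹ := by
    intro n hn
    have e1 : ¬ n = 2 * s := by omega
    have e2 : ¬ n = 2 * s + 1 := by omega
    simp only [hX, e1, e2, if_false]
  obtain ⟨T, hT, h⟩ := hL s (k + 1) X (by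
    rw [cprod_succ', h0, h1]
    have e1 : cprod (s + 1) k X = a s * zeta (s + 1) k * (a s)⁻¹ := by
      rw [cprod_congr (s + 1) k X (fun n => a s * FreeGroup.of n * (a s)⁻¹)
        (fun n hn _ => h2 n (by omega))]
      have := cprod_conj (s + 1) k (fun n => FreeGroup.of n) (a s)⁻¹
      rw [cprod_of] at this
      simp only [inv_inv] at this
      exact this
    have e2 : zeta (s + 1) k = (H s)⁻¹ * zeta s (k + 1) := by
      rw [zeta_succ']; group
    rw [e1, e2, H]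
    group)
  have ha : T (a s) = zeta s (k + 1) * a s * (zeta s (k + 1))⁻¹ := by
    rw [← h0]; exact h _ (by omega) (by omega)
  have hb : T (b s) = a s * b s * (a s)⁻¹ * (zeta s (k + 1))⁻¹ := by
    rw [← h1]; exact h _ (by omega) (by omega)
  refine ⟨T, ⟨hT, ?_⟩, ha, hb, fun n n1 n2 => by rw [← h2 n n1]; exact h n (by omega) (by omega)⟩
  change T ∈ IA
  rw [mem_IA_iff_of]
  intro n
  by_cases hn : 2 * s ≤ n ∧ n < 2 * (s + (k + 1))
  · by_cases n0 : n = 2 * s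
    · subst n0
      change cl (T (a s)) = cl (a s)
      rw [ha, map_mul, map_mul, map_inv, cl_zeta, inv_one, mul_one, one_mul]
    · by_cases n1 : n = 2 * s + 1
      · subst n1
        change cl (T (b s)) = cl (b s)
        rw [hb]
        simp only [map_mul, map_inv, cl_zeta, inv_one, mul_one]
        rw [mul_right_comm, mul_inv_cancel, one_mul]
      · rw [h n hn.1 hn.2, h2 n (by omega), map_mul, map_mul, map_inv, mul_right_comm,
          mul_inv_cancel, one_mul]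
  · rw [M_fix_of hT (by omega)]

theorem toQ_zeta_B (k : ℕ) : toQ (k + 1) (zeta 1 k) = (toQ (k + 1) (H 0))⁻¹ := by
  have h := toQ_zeta (k + 1)
  rw [zeta_succ', map_mul] at h
  exact eq_inv_of_mul_eq_one_right h

theorem openGen (hL : LiftStmt) (hP : PGStmt) (hB : B1Stmt) (hK : KapStmt) (hG : GStmt)
    (hH : HStmt) (g : ℕ) (hg : 4 ≤ g) : OpenGen g (ng g) := by
  obtain ⟨k, rfl⟩ : ∃ k, g = k + 1 := ⟨g - 1, by omega⟩
  have hk : 3 ≤ k := by omega
  obtain ⟨t, ht⟩ := torGen hP hB hK hG hH k hk 1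
  obtain ⟨L, hL1, hL2⟩ := hP 1 k hk
  have hLF : ∀ i, L i ∈ FS 1 k ∧ cl (L i) = 1 := by
    intro i
    obtain ⟨θ, hθ, h⟩ := hL1 i
    rw [h]
    exact M_Tor_conj hθ _ (H_mem_FS le_rfl (by omega)) (cl_H _)
  let f : Fin (mh k) ⊕ (Fin (2 * k ^ 2 + k) ⊕ Fin (2 * k ^ 2 + k)) → MulAut F :=
    Sum.elim t (Sum.elim (fun i => kap 0 (L i)) (fun i => kapb 0 (L i)))
  have hcard : Fintype.card (Fin (mh k) ⊕ (Fin (2 * k ^ 2 + k) ⊕ Fin (2 * k ^ 2 + k))) =
      ng (k + 1) := by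
    simp only [Fintype.card_sum, Fintype.card_fin]
    rw [← mh_add]; ring
  have htT : ∀ i, t i ∈ Tor 1 k := fun i => by rw [← ht]; exact Subgroup.subset_closure ⟨i, rfl⟩
  have hTT : Tor 1 k ≤ Tor 0 (k + 1) := Tor_mono (by omega) (by omega)
  have hfT : ∀ x, f x ∈ Tor 0 (k + 1) := by
    rintro (i | i | i)
    · exact hTT (htT i)
    · exact (kap_mem hK (hLF i).1 (hLF i).2).1
    · exact (kap_mem hK (hLF i).1 (hLF i).2).2
  let e := (Fintype.equivFinOfCardEq hcard)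
  refine ⟨f ∘ e.symm, fun i => hfT _, InnT (k + 1), fun u hu => hu, ?_⟩
  have hrange : Set.range (f ∘ e.symm) = Set.range f := by
    rw [Set.range_comp, e.symm.surjective.range_eq, Set.image_univ]
  rw [hrange]
  set K := Subgroup.closure (Set.range f ∪ InnT (k + 1)) with hKdef
  have hr : ∀ x, f x ∈ K := fun x => Subgroup.subset_closure (Or.inl ⟨x, rfl⟩)
  have hI : ∀ u ∈ InnT (k + 1), u ∈ K := fun u hu => Subgroup.subset_closure (Or.inr hu)
  have hT : Tor 1 k ≤ K := by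
    rw [← ht, Subgroup.closure_le]
    rintro _ ⟨i, rfl⟩
    exact hr (Sum.inl i)
  have hM : M 1 k ≤ M 0 (k + 1) := M_mono (by omega) (by omega)
  have hw0 : w 0 ∈ M 0 (k + 1) := w_mem_M (by omega) (by omega)
  -- the boundary twist of `B`
  obtain ⟨TZ, hTZ, hTZf⟩ := exists_TZ hL 1 k
  have hTZa : TZ (a 0) = a 0 := M_fix_a hTZ.1 (by omega)
  have hTZb : TZ (b 0) = b 0 := M_fix_b hTZ.1 (by omega)
  have hzF : zeta 1 k ∈ FS 1 k := zeta_mem_FS le_rfl le_rfl
  have hkz : kap 0 (zeta 1 k) ∈ Tor 0 (k + 1) := hK.tor 0 k _ hzF (cl_zeta _ _)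
  have hspec := kap_zeta_spec 0 k
  have hqz := toQ_zeta_B k
  -- (c1)
  have hc1 : kap 0 (zeta 1 k) * TZ⁻¹ ∈ InnT (k + 1) := by
    apply InnT_of hkz (hTT hTZ) (a 0)
    intro n hn
    by_cases n0 : n = 0
    · subst n0
      change toQ (k + 1) (kap 0 (zeta 1 k) (a 0)) = toQ (k + 1) (a 0 * TZ (a 0) * (a 0)⁻¹)
      rw [hspec.fa, hTZa]; simp
    by_cases n1 : n = 1
    · subst n1
      change toQ (k + 1) (kap 0 (zeta 1 k) (b 0)) = toQ (k + 1) (a 0 * TZ (b 0) * (a 0)⁻¹)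
      rw [hspec.fb, hTZb]
      simp only [map_mul, map_inv, Nat.zero_add, hqz, inv_inv, H]
      group
    · have hx : (FreeGroup.of n : F) ∈ FS (0 + 1) k := of_mem_FS (by omega) (by omega)
      rw [hspec.mid _ hx, hTZf n (by omega) (by omega)]
      simp only [map_mul, map_inv, Nat.zero_add, hqz, inv_inv, H, d]
      group
  have hkK : kap 0 (zeta 1 k) ∈ K := by
    have : kap 0 (zeta 1 k) = kap 0 (zeta 1 k) * TZ⁻¹ * TZ := by group
    rw [this]
    exact mul_mem (hI _ hc1) (hT hTZ)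
  -- (c2)
  have hkbK : kapb 0 (zeta 1 k) ∈ K := by
    have h1 : w 0 * TZ = TZ * w 0 := w_comm hTZ.1
    have : kapb 0 (zeta 1 k) = (w 0 * (kap 0 (zeta 1 k) * TZ⁻¹) * (w 0)⁻¹) * TZ := by
      unfold kapb
      have h2 : (w 0)⁻¹ * TZ = TZ * (w 0)⁻¹ := by
        have : Commute (w 0) TZ := h1
        exact this.inv_left.eq
      simp only [mul_assoc]
      rw [h2]; group
    rw [this]
    exact mul_mem (hI _ (InnT_conj hc1 hw0)) (hT hTZ)
  have ea0 : (FreeGroup.of 0 : F) = a 0 := rfl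
  have ea1 : (FreeGroup.of 1 : F) = b 0 := rfl
  have ea2 : (FreeGroup.of 2 : F) = a 1 := rfl
  have ea3 : (FreeGroup.of 3 : F) = b 1 := rfl
  have hDXa1 : DX 0 (a 1) = (a 1)⁻¹ * (H 0)⁻¹ * a 1 * H 0 * a 1 := by
    have h := DX_a1 0; rw [Nat.zero_add] at h; exact h
  have hDXb1 : DX 0 (b 1) = b 1 * (a 1)⁻¹ * H 0 * a 1 := by
    have h := DX_b1 0; rw [Nat.zero_add] at h; exact h
  have hDXa0 : DX 0 (a 0) = (a 1)⁻¹ * a 0 * a 1 := by
    have h := DX_a0 0; rw [Nat.zero_add] at h; exact h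
  have hDXb0 : DX 0 (b 0) = (a 1)⁻¹ * b 0 * a 1 := by
    have h := DX_b0 0; rw [Nat.zero_add] at h; exact h
  -- (c3)
  obtain ⟨Ps, hPs, hPa, hPb, hPn⟩ := exists_psiD hL 1 k (by omega)
  have hPsa : Ps (a 0) = a 0 := M_fix_a hPs.1 (by omega)
  have hPsb : Ps (b 0) = b 0 := M_fix_b hPs.1 (by omega)
  have hDpT : Dp 0 (k + 1) ≤ Tor 0 (k + 1) := by
    rw [hG 0 (k + 1) (by omega)]; exact le_sup_right
  have hDXT : DX 0 ∈ Tor 0 (k + 1) :=
    hDpT (Subgroup.subset_closure (Or.inl ⟨0, by omega, Or.inl rfl⟩))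
  have hTDT : TD 0 ∈ Tor 0 (k + 1) := hDpT (Subgroup.subset_closure (Or.inr rfl))
  have hc3 : DX 0 * Ps⁻¹ ∈ InnT (k + 1) := by
    apply InnT_of hDXT (hTT hPs) (a 1)⁻¹
    intro n hn
    by_cases n0 : n = 0
    · subst n0
      rw [ea0, hDXa0, hPsa, inv_inv]
    by_cases n1 : n = 1
    · subst n1
      rw [ea1, hDXb0, hPsb, inv_inv]
    by_cases n2 : n = 2
    · subst n2
      rw [ea2, hDXa1, hPa]
      simp only [map_mul, map_inv, hqz, inv_inv]
      group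
    by_cases n3 : n = 3
    · subst n3
      rw [ea3, hDXb1, hPb]
      simp only [map_mul, map_inv, hqz, inv_inv]
      group
    · rw [DX_out 0 n (by omega), hPn n (by omega) (by omega)]
      have e5 : (a 1)⁻¹ * (a 1 * FreeGroup.of n * (a 1)⁻¹) * (a 1)⁻¹⁻¹ = FreeGroup.of n := by group
      rw [e5]
  -- (c4)
  have hc4 : TD 0 * TZ⁻¹ ∈ InnT (k + 1) := by
    apply InnT_of hTDT (hTT hTZ) (H 0)
    intro n hn
    by_cases n0 : n = 0
    · subst n0
      rw [ea0, TD_a0, hTZa]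
    by_cases n1 : n = 1
    · subst n1
      rw [ea1, TD_b0, hTZb]
    · rw [TD_out 0 n (by omega), hTZf n (by omega) (by omega)]
      simp only [map_mul, map_inv, hqz, inv_inv]
      group
  -- (c5)
  have hDXc : ∀ γ ∈ M 1 k, γ * DX 0 * γ⁻¹ ∈ K := by
    intro γ hγ
    have : γ * DX 0 * γ⁻¹ = (γ * (DX 0 * Ps⁻¹) * γ⁻¹) * (γ * Ps * γ⁻¹) := by group
    rw [this]
    exact mul_mem (hI _ (InnT_conj hc3 (hM hγ))) (hT (Tor_conj hPs hγ))
  have hDa : ∀ i, i < k → ∀ γ ∈ M 1 k, γ * Da 0 i * γ⁻¹ ∈ K := by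
    intro i
    induction i with
    | zero => intro _ γ hγ; exact hDXc γ hγ
    | succ i ih =>
      intro hi γ hγ
      have hS : S (0 + 1 + i) ∈ M 1 k := by
        have := S_mem (0 + 1 + i) 2 le_rfl
        exact M_mono (by omega) (by omega) this
      have := ih (by omega) (γ * S (0 + 1 + i)) (mul_mem hγ hS)
      rw [Da]
      have e1 : γ * (S (0 + 1 + i) * Da 0 i * (S (0 + 1 + i))⁻¹) * γ⁻¹ =
          γ * S (0 + 1 + i) * Da 0 i * (γ * S (0 + 1 + i))⁻¹ := by group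
      rw [e1]; exact this
  have hDb : ∀ i, i < k → ∀ γ ∈ M 1 k, γ * Db 0 i * γ⁻¹ ∈ K := by
    intro i
    induction i with
    | zero =>
      intro _ γ hγ
      have hw1 : w (0 + 1) ∈ M 1 k := w_mem_M (by omega) (by omega)
      have := inv_mem (hDXc (γ * w (0 + 1)) (mul_mem hγ hw1))
      rw [Db]
      have e1 : γ * (w (0 + 1) * DX 0 * (w (0 + 1))⁻¹)⁻¹ * γ⁻¹ =
          (γ * w (0 + 1) * DX 0 * (γ * w (0 + 1))⁻¹)⁻¹ := by group
      rw [e1]; exact this
    | succ i ih =>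
      intro hi γ hγ
      have hS : S (0 + 1 + i) ∈ M 1 k := by
        have := S_mem (0 + 1 + i) 2 le_rfl
        exact M_mono (by omega) (by omega) this
      have := ih (by omega) (γ * S (0 + 1 + i)) (mul_mem hγ hS)
      rw [Db]
      have e1 : γ * (S (0 + 1 + i) * Db 0 i * (S (0 + 1 + i))⁻¹) * γ⁻¹ =
          γ * S (0 + 1 + i) * Db 0 i * (γ * S (0 + 1 + i))⁻¹ := by group
      rw [e1]; exact this
  rw [hG 0 (k + 1) (by omega)]
  unfold JG
  rw [Nat.add_sub_cancel]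
  refine sup_le (sup_le (sup_le hT ?_) ?_) ?_
  · exact Ka_le hP hB hK hk L hL1 hL2 _ hT hkK (fun i => hr (Sum.inr (Sum.inl i)))
  · exact Kb_le hP hB hK hk L hL1 hL2 _ hT hkbK (fun i => hr (Sum.inr (Sum.inr i)))
  · unfold Dp
    rw [Subgroup.closure_le]
    rintro φ (⟨i, hi, rfl | rfl⟩ | h)
    · have := hDa i (by omega) 1 (one_mem _)
      simpa using this
    · have := hDb i (by omega) 1 (one_mem _)
      simpa using this
    · rw [Set.mem_singleton_iff] at h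
      subst h
      have : TD 0 = TD 0 * TZ⁻¹ * TZ := by group
      rw [this]
      exact mul_mem (hI _ hc4) (hT hTZ)

/-- The frozen statement S14217 from the statements of the parts. -/
theorem final_of_parts (hL : LiftStmt) (hC : ClosedStmt) (hP : PGStmt) (hB : B1Stmt)
    (hK : KapStmt) (hG : GStmt) (hH : HStmt) :
    ∀ g : ℕ, 4 ≤ g → ∀ (G : Type) [Group G],
      Nonempty (G ≃* PiG g) →
      ∃ f : Fin ((4 * g ^ 3 - g) / 3) → MulAut G,
        (∀ i : Fin ((4 * g ^ 3 - g) / 3), ∀ x : G,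
            Abelianization.of (f i x) = Abelianization.of x) ∧
        ∀ ψ : MulAut G, (∀ x : G, Abelianization.of (ψ x) = Abelianization.of x) →
          ψ ∈ Subgroup.closure
            (Set.range f ∪ Set.range (fun x : G => MulAut.conj x)) :=
  final_of hL hC (fun g hg => openGen hL hP hB hK hG hH g hg)

end Pool.Agent.Torelli
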